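import Pool.Agent.Work.MP_85af13_lc.G.E.Val

/-!
# Module BitC (size S): chains of average nodes computing binary fractions

Induction on `m` for all `q`, `b`: `V_avg` at `q` (entry `i = 0`): the value is `(b 0 + X) / 2` (`V_inr`), where
for `m = 1` `X` is the value of the sink `f`, and for `m + 1`, `m ≥ 1`, `X = V (Sum.inl (q + 1))`, to which the
induction hypothesis with `q + 1` and `fun i => b (i + 1)` applies (`Finset.sum_range_succ'`, `pow_succ`).
-/

set_option autoImplicit false

namespace Pool.Agent.Work.MP_85af13_lc.G.E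

open Pool.Agent.Work.PolyTime

theorem bit_chain (S : SInst) (σ τ : Fin S.1.length → Bool) (f : Bool) :
    ∀ (m q : ℕ) (b : ℕ → Bool), 0 < m → q + m ≤ S.1.length →
      (∀ i < m, S.1.getD (q + i) dNd =
        (none, Sum.inr (b i), if i + 1 < m then Sum.inl (q + i + 1) else Sum.inr f)) →
      V S σ τ (Sum.inl q) = ∑ i ∈ Finset.range m, (if b i then (1 : ℝ) else 0) * (1 / 2) ^ (i + 1) +
        (if f then (1 : ℝ) else 0) * (1 / 2) ^ m := by
  intro m
  induction m with
  | zero => intro q b hm; exact absurd hm (lt_irrefl 0)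
  | succ m ih =>
    intro q b _ hq h
    have h0 := h 0 (Nat.succ_pos m)
    rw [Nat.add_zero] at h0
    rw [V_avg S σ τ (by omega) h0, V_inr]
    rcases Nat.eq_zero_or_pos m with rfl | hm
    · simp only [zero_add, lt_irrefl, if_false, V_inr, Finset.range_one, Finset.sum_singleton,
        pow_one]
      ring
    · rw [if_pos (show 0 + 1 < m + 1 by omega), ih (q + 1) (fun i => b (i + 1)) hm (by omega) (fun i hi => by
        have := h (i + 1) (by omega)
        rw [show q + 1 + i = q + (i + 1) by omega, this]
        by_cases hc : i + 1 < m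
        · rw [if_pos hc, if_pos (by omega)]
        · rw [if_neg hc, if_neg (by omega)]), Finset.sum_range_succ', zero_add]
      have hs : ∑ k ∈ Finset.range m, (if b (k + 1) = true then (1 : ℝ) else 0) *
          (1 / 2) ^ (k + 1 + 1) = (∑ k ∈ Finset.range m, (if b (k + 1) = true then (1 : ℝ) else 0) *
          (1 / 2) ^ (k + 1)) / 2 := by
        rw [Finset.sum_div]
        exact Finset.sum_congr rfl fun k _ => by rw [pow_succ]; ring
      rw [hs, pow_succ]
      ring

end Pool.Agent.Work.MP_85af13_lc.G.E
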