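import Pool.Agent.Work.MP_85af13_lc.G.E.Defs

/-!
# Module Bnd (size S-M): size bounds and edges

`lenI I = sz I` (definitionally). `sz_pair`, `sz_mem`, `length_lt_sz`, `sz_pos`, `sz_cons` of PolyTime/Typed.lean:
`I.1.length < sz I.1 < sz I`; for `v < I.1.length` the pair `I.1.getD v _` is a member of `I.1`, so
`sz (edges I.1 v) < sz I.1` and `(edges I.1 v).length < sz (edges I.1 v)`; for a member `e` also
`sz e < sz (edges I.1 v)`, `e.2.2.length < sz e.2.2 < sz e`. `wgt_le`: `binVal l < 2 ^ l.length` (induction).
`edgeAt_mem`: `List.getD` is an entry of the list or the default, which is the head of the list.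
`exists_edgeAt`: a member is an entry `j < length`.
`wfB_iff`: `List.all_eq_true`, members of `I.1` are the entries `I.1.getD v _`, `v < I.1.length`.
-/

set_option autoImplicit false

namespace Pool.Agent.Work.MP_85af13_lc.G.E

open Pool.Agent.Work.PolyTime

variable {I : Arena × ℕ}

private theorem lenI_eq (I : Arena × ℕ) : lenI I = 1 + sz I.1 + sz I.2 := sz_pair I.1 I.2

private theorem getD_mem {A : Arena} {v : ℕ} (hv : v < A.length) : A.getD v (true, []) ∈ A := by
  rw [List.getD_eq_getElem _ _ hv]
  exact List.getElem_mem hv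

private theorem sz_edges {v : ℕ} (hv : v < I.1.length) : sz (edges I.1 v) < sz I.1 := by
  have h := sz_mem (getD_mem hv)
  have h2 : sz (I.1.getD v (true, [])) =
      1 + sz (I.1.getD v (true, [])).1 + sz (I.1.getD v (true, [])).2 := sz_pair _ _
  unfold edges
  omega

theorem lenI_pos : 0 < lenI I := by
  rw [lenI_eq]; omega

theorem length_lt : I.1.length < lenI I := by
  have := length_lt_sz I.1
  rw [lenI_eq]; omega

theorem deg_lt {v : ℕ} (hv : v < I.1.length) : (edges I.1 v).length < lenI I := by
  have := length_lt_sz (edges I.1 v)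
  have := sz_edges hv
  rw [lenI_eq]; omega

theorem wlen_lt {v : ℕ} (hv : v < I.1.length) {e : WEdge} (he : e ∈ edges I.1 v) :
    e.2.2.length < lenI I := by
  have h1 := length_lt_sz e.2.2
  have h2 := sz_edges hv
  have h3 := sz_mem he
  have h4 : sz e = 1 + sz e.1 + sz e.2 := sz_pair e.1 e.2
  have h5 : sz e.2 = 1 + sz e.2.1 + sz e.2.2 := sz_pair e.2.1 e.2.2
  rw [lenI_eq]; omega

private theorem binVal_lt (l : List Bool) : binVal l < 2 ^ l.length := by
  induction l with
  | nil => simp [binVal]
  | cons b l ih =>
    rw [List.length_cons, pow_succ]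
    cases b <;> simp [binVal] <;> omega

theorem wgt_le (e : WEdge) : |wgt e| ≤ 2 ^ e.2.2.length := by
  have h : |wgt e| = (binVal e.2.2 : ℤ) := by
    unfold wgt
    split_ifs
    · rw [abs_neg]; exact abs_of_nonneg (by positivity)
    · exact abs_of_nonneg (by positivity)
  rw [h]
  exact_mod_cast (binVal_lt e.2.2).le

theorem edgeAt_mem {A : Arena} {v : ℕ} (h : edges A v ≠ []) (j : ℕ) : edgeAt A v j ∈ edges A v := by
  unfold edgeAt
  by_cases hj : j < (edges A v).length
  · rw [List.getD_eq_getElem _ _ hj]
    exact List.getElem_mem hj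
  · rw [List.getD_eq_default _ _ (not_lt.1 hj)]
    cases hE : edges A v with
    | nil => exact absurd hE h
    | cons a l => simp

theorem exists_edgeAt {A : Arena} {v : ℕ} {e : WEdge} (he : e ∈ edges A v) :
    ∃ j < (edges A v).length, edgeAt A v j = e := by
  obtain ⟨j, hj, h⟩ := List.getElem_of_mem he
  exact ⟨j, hj, by unfold edgeAt; rw [List.getD_eq_getElem _ _ hj, h]⟩

theorem wfB_iff : wfB I = true ↔ MPWF I := by
  unfold wfB MPWF Closed
  rw [Bool.and_eq_true, Bool.and_eq_true, decide_eq_true_iff, List.all_eq_true,
    List.all_eq_true]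
  refine and_congr Iff.rfl (and_congr ?_ ?_)
  · constructor
    · intro h v hv hE
      have := h _ (getD_mem hv)
      unfold edges at hE
      rw [hE] at this
      simp at this
    · intro h p hp
      obtain ⟨v, hv, rfl⟩ := List.getElem_of_mem hp
      have := h v hv
      unfold edges at this
      rw [List.getD_eq_getElem _ _ hv] at this
      simpa using this
  · constructor
    · intro h v hv e he
      have := h _ (getD_mem hv)
      rw [List.all_eq_true] at this
      exact of_decide_eq_true (this e he)
    · intro h p hp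
      obtain ⟨v, hv, rfl⟩ := List.getElem_of_mem hp
      rw [List.all_eq_true]
      intro e he
      refine decide_eq_true (h v hv e ?_)
      unfold edges
      rw [List.getD_eq_getElem _ _ hv]
      exact he

end Pool.Agent.Work.MP_85af13_lc.G.E
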