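import Pool.Agent.Work.MP_85af13_lc.G.E.PlC

/-!
# Module Str (size M): strategies with prescribed choices

`σ q = true` iff there are `v < I.1.length` and `j < lenI I` with `(q : ℕ) = bs (lenI I) v j` and `j ≠ c v`
(classical). By `bs_inj`, for `v < I.1.length`, `j < lenI I` (and `bs (lenI I) v j < (toS I).1.length` by `bs_lt`
with `i = 1`) we have `rd σ (bs (lenI I) v j) = true` iff `j ≠ c v`. Then `ff_choose` with `j = 0`, `m = lenI I - 1`.
-/

set_option autoImplicit false

namespace Pool.Agent.Work.MP_85af13_lc.G.E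

open Pool.Agent.Work.PolyTime

theorem exists_str (I : Arena × ℕ) (c : ℕ → ℕ) (hc : ∀ v < I.1.length, c v < lenI I) :
    ∃ σ : Fin (toS I).1.length → Bool, ∀ v < I.1.length, ch (lenI I) σ v = c v := by
  classical
  refine ⟨fun q => decide (∃ v j, v < I.1.length ∧ j < lenI I ∧ (q : ℕ) = bs (lenI I) v j ∧
    j ≠ c v), fun v hv => ?_⟩
  have hrd : ∀ j, j < lenI I → (rd (fun q : Fin (toS I).1.length => decide (∃ v j,
      v < I.1.length ∧ j < lenI I ∧ (q : ℕ) = bs (lenI I) v j ∧ j ≠ c v)) (bs (lenI I) v j) =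
      decide (j ≠ c v)) := by
    intro j hj
    have hq : bs (lenI I) v j < (toS I).1.length := by
      have := bs_lt I hv hj (i := 1) (by omega)
      omega
    unfold rd
    rw [dif_pos hq, decide_eq_decide]
    constructor
    · rintro ⟨v', j', hv', hj', h, hne⟩
      obtain ⟨rfl, rfl⟩ := bs_inj hj hj' h
      exact hne
    · intro hne
      exact ⟨v, j, hv, hj, rfl, hne⟩
  unfold ch
  have hcv := hc v hv
  refine ff_choose (Nat.zero_le _) (by omega) ?_ ?_
  · intro i _ hi
    show rd _ (bs (lenI I) v i) = true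
    rw [hrd i (by omega)]
    exact decide_eq_true (by omega)
  · show rd _ (bs (lenI I) v (c v)) = false
    rw [hrd _ hcv]
    exact decide_eq_false (by simp)

end Pool.Agent.Work.MP_85af13_lc.G.E
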