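import Pool.Agent.Work.MP_85af13_lc.G.E.Key
import Pool.Agent.Work.MP_85af13_lc.G.E.Str

/-!
# Module Corr (size M): correctness of the reduction

Private lemma: if `σ'`, `τ'` are strategies of the game and `σ`, `τ : ℕ → WEdge` satisfy
`mv I σ' τ' v = move I.1 σ τ v` for all `v < I.1.length`, then (all positions are `< I.1.length` by `Closed` and
`Strat`/`edgeAt_mem`) `pos I.1 σ τ I.2 t = (fun v => (mv I σ' τ' v).1)^[t] I.2` for all `t` (induction,
`Function.iterate_succ_apply'`), and the sums in `key` and in `ValueNonneg` agree.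
* From left to right: given `σ'`, put `σ v = edgeAt I.1 v (ch L σ' v)` (`Strat` by `edgeAt_mem`). Given `τ` with
  `Strat I.1 τ`, choose numbers `c v < L` with `edgeAt I.1 v (c v) = τ v` for `v < I.1.length` (`exists_edgeAt`,
  `deg_lt`) and `τ'` by `exists_str`; apply `key` to `1/2 ≤ winProb σ' τ'`.
* From right to left: given `σ`, choose `σ'` in the same way; given `τ'`, put `τ v = edgeAt I.1 v (ch L τ' v)`.
-/

set_option autoImplicit false

namespace Pool.Agent.Work.MP_85af13_lc.G.E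

open Pool.Agent.Work.PolyTime

private theorem pos_eq {I : Arena × ℕ} (h : MPWF I) {σ τ : ℕ → WEdge} (hσ : Strat I.1 σ)
    (hτ : Strat I.1 τ) {σ' τ' : Fin (toS I).1.length → Bool}
    (hm : ∀ v < I.1.length, mv I σ' τ' v = move I.1 σ τ v) (t : ℕ) :
    pos I.1 σ τ I.2 t < I.1.length ∧
      pos I.1 σ τ I.2 t = (fun v => (mv I σ' τ' v).1)^[t] I.2 := by
  induction t with
  | zero => exact ⟨h.1, rfl⟩
  | succ t ih =>
    have hmem : move I.1 σ τ (pos I.1 σ τ I.2 t) ∈ edges I.1 (pos I.1 σ τ I.2 t) := by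
      unfold move
      split_ifs
      · exact hσ _ ih.1
      · exact hτ _ ih.1
    refine ⟨h.2.2 _ ih.1 _ hmem, ?_⟩
    rw [Function.iterate_succ_apply', ← ih.2]
    change (move I.1 σ τ (pos I.1 σ τ I.2 t)).1 = (mv I σ' τ' (pos I.1 σ τ I.2 t)).1
    rw [hm _ ih.1]

private theorem cond_iff {I : Arena × ℕ} (h : MPWF I) {σ τ : ℕ → WEdge} (hσ : Strat I.1 σ)
    (hτ : Strat I.1 τ) {σ' τ' : Fin (toS I).1.length → Bool}
    (hm : ∀ v < I.1.length, mv I σ' τ' v = move I.1 σ τ v) (h0 : 0 < (toS I).1.length) :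
    1 / 2 ≤ (gameOf (toS I)).winProb σ' τ' ⟨0, h0⟩ ↔
      ∀ m k, pos I.1 σ τ I.2 (m + k) = pos I.1 σ τ I.2 m →
        0 ≤ ∑ i ∈ Finset.range k, wgt (move I.1 σ τ (pos I.1 σ τ I.2 (m + i))) := by
  rw [key I h σ' τ' h0]
  refine forall_congr' fun m => forall_congr' fun k => ?_
  rw [← (pos_eq h hσ hτ hm (m + k)).2, ← (pos_eq h hσ hτ hm m).2]
  have hs : ∑ i ∈ Finset.range k, wgt (mv I σ' τ' ((fun v => (mv I σ' τ' v).1)^[m + i] I.2)) =
      ∑ i ∈ Finset.range k, wgt (move I.1 σ τ (pos I.1 σ τ I.2 (m + i))) :=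
    Finset.sum_congr rfl fun i _ => by
      rw [← (pos_eq h hσ hτ hm (m + i)).2, hm _ (pos_eq h hσ hτ hm (m + i)).1]
  rw [hs]

private theorem exists_ch {I : Arena × ℕ} {σ : ℕ → WEdge} (hσ : Strat I.1 σ) :
    ∃ σ' : Fin (toS I).1.length → Bool, ∀ v < I.1.length,
      edgeAt I.1 v (ch (lenI I) σ' v) = σ v := by
  classical
  have hc : ∀ v, ∃ c, v < I.1.length → c < lenI I ∧ edgeAt I.1 v c = σ v := by
    intro v
    by_cases hv : v < I.1.length
    · obtain ⟨j, hj, he⟩ := exists_edgeAt (hσ v hv)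
      exact ⟨j, fun _ => ⟨hj.trans (deg_lt hv), he⟩⟩
    · exact ⟨0, fun hv' => absurd hv' hv⟩
  choose c hc using hc
  obtain ⟨σ', hσ'⟩ := exists_str I c fun v hv => (hc v hv).1
  exact ⟨σ', fun v hv => by rw [hσ' v hv, (hc v hv).2]⟩

theorem corr (I : Arena × ℕ) (h : MPWF I) (h0 : 0 < (toS I).1.length) :
    (gameOf (toS I)).ValueAtLeastHalf ⟨0, h0⟩ ↔ ValueNonneg I.1 I.2 := by
  have hst : ∀ σ' : Fin (toS I).1.length → Bool,
      Strat I.1 fun v => edgeAt I.1 v (ch (lenI I) σ' v) := fun σ' v hv =>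
    edgeAt_mem (h.2.1 v hv) _
  have hmv : ∀ (σ τ : ℕ → WEdge) (σ' τ' : Fin (toS I).1.length → Bool),
      (∀ v < I.1.length, edgeAt I.1 v (ch (lenI I) σ' v) = σ v) →
      (∀ v < I.1.length, edgeAt I.1 v (ch (lenI I) τ' v) = τ v) →
      ∀ v < I.1.length, mv I σ' τ' v = move I.1 σ τ v := by
    intro σ τ σ' τ' h1 h2 v hv
    unfold mv move
    cases ho : owner I.1 v
    · simpa using h2 v hv
    · simpa using h1 v hv
  constructor
  · rintro ⟨σ', hσ'⟩
    refine ⟨fun v => edgeAt I.1 v (ch (lenI I) σ' v), hst σ', fun τ hτ => ?_⟩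
    obtain ⟨τ', hτ'⟩ := exists_ch hτ
    exact (cond_iff h (hst σ') hτ (hmv _ τ σ' τ' (fun v _ => rfl) hτ') h0).1 (hσ' τ')
  · rintro ⟨σ, hσ, hall⟩
    obtain ⟨σ', hσ'⟩ := exists_ch hσ
    refine ⟨σ', fun τ' => ?_⟩
    exact (cond_iff h hσ (hst τ') (hmv σ _ σ' τ' hσ' fun v _ => rfl) h0).2
      (hall _ (hst τ'))

end Pool.Agent.Work.MP_85af13_lc.G.E
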