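import Pool.Agent.Work.MP_85af13_lc.G.Defs
import Pool.Agent.Work.MP_85af13_lc.SSG
import Pool.Agent.Work.PolyTime.NPClose

/-!
Block E, fixed definitions: the simple stochastic game of a mean payoff game.

`L` is the length of the code of the instance; it bounds the number of vertices, all out-degrees
and all lengths of weights. The game has a start part of `2 L + 3` nodes and, for every vertex `v`
and every `j < L`, a block of `4 L + 5` nodes starting with the number `bs L v j`: the player node
`(v, j)` (successors: the node `1` of the block, and the player node `(v, j + 1)`), `3 L + 3`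
average nodes which lead to the player node `(u, 0)`, `u` the target of the edge `j` of `v`, or to
the next node, and `L + 1` average nodes which compute `1/2 + w / 2 ^ (L + 1)`, `w` the weight.
-/

set_option autoImplicit false

namespace Pool.Agent.Work.MP_85af13_lc.G.E

open Pool.Agent.Work.PolyTime

/-- The length of the code. -/
def lenI (I : Arena × ℕ) : ℕ := (code I).ser.length

/-- The `j`-th outgoing edge of `v`; the first one if there are not so many. -/
def edgeAt (A : Arena) (v j : ℕ) : WEdge := (edges A v).getD j ((edges A v).headD (0, false, []))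

/-- The number of the player node `(v, j)`. -/
def bs (L v j : ℕ) : ℕ := (2 * L + 3) + (v * L + j) * (4 * L + 5)

/-- A node of a simple stochastic game. -/
abbrev Nd : Type := Option Bool × (ℕ ⊕ Bool) × (ℕ ⊕ Bool)

/-- Default node. -/
def dNd : Nd := (none, Sum.inr false, Sum.inr false)

/-- The digit `r ≤ L` of `1/2 + |w| / 2 ^ (L + 1)`, complemented if `w` is negative. -/
def rbit (L : ℕ) (e : WEdge) (r : ℕ) : Bool :=
  xor e.2.1 (decide (r = 0) || e.2.2.getD (L - r) false)

/-- The node `i` of the block `(v, j)`. -/
def blk (I : Arena × ℕ) (v j i : ℕ) : Nd :=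
  bif decide (i = 0) then
    (some (owner I.1 v), Sum.inl (bs (lenI I) v j + 1),
      bif decide (j + 1 < lenI I) then Sum.inl (bs (lenI I) v (j + 1))
      else Sum.inl (bs (lenI I) v j + 1))
  else bif decide (i < 3 * lenI I + 4) then
    (none, Sum.inl (bs (lenI I) (edgeAt I.1 v j).1 0), Sum.inl (bs (lenI I) v j + i + 1))
  else
    (none, Sum.inr (rbit (lenI I) (edgeAt I.1 v j) (i - (3 * lenI I + 4))),
      bif decide (i + 1 < 4 * lenI I + 5) then Sum.inl (bs (lenI I) v j + i + 1)
      else Sum.inr (edgeAt I.1 v j).2.1)

/-- The node `i` of the start part: the start node `0` leads to the player node `(s, 0)` or to the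
node `1`; the nodes `1, .., 2 L + 2` compute `1/2 + 1 / 2 ^ (2 L + 2)`. -/
def hd (I : Arena × ℕ) (i : ℕ) : Nd :=
  bif decide (i = 0) then (none, Sum.inl (bs (lenI I) I.2 0), Sum.inl 1)
  else
    (none, Sum.inr (decide (i = 1) || decide (i = 2 * lenI I + 2)),
      bif decide (i < 2 * lenI I + 2) then Sum.inl (i + 1) else Sum.inr false)

/-- The simple stochastic game of a mean payoff game. -/
def toS (I : Arena × ℕ) : SInst :=
  ((List.range (2 * lenI I + 3)).map (hd I) ++
    (List.range I.1.length).flatMap fun v => (List.range (lenI I)).flatMap fun j =>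
      (List.range (4 * lenI I + 5)).map fun i => blk I v j i, 0)

/-- The test of well-formedness. -/
def wfB (I : Arena × ℕ) : Bool :=
  decide (I.2 < I.1.length) && (I.1.all (fun p => !(p.2.isEmpty)) &&
    I.1.all (fun p => p.2.all fun e => decide (e.1 < I.1.length)))

/-- The reduction. -/
def redE (w : List Bool) : List Bool :=
  ((parseW (Arena × ℕ) w).bind fun I => some (bif wfB I then (code (toS I)).ser else [])).getD []

/-! ### Values of positions -/

/-- Probability that the play from a position reaches the 1-sink. -/
noncomputable def V (S : SInst) (σ τ : Fin S.1.length → Bool) (p : ℕ ⊕ Bool) : ℝ :=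
  ext ((gameOf S).winProb σ τ) sinkVal (toPos S.1.length p)

/-- A strategy as a function of numbers. -/
def rd {N : ℕ} (σ : Fin N → Bool) (q : ℕ) : Bool := if h : q < N then σ ⟨q, h⟩ else false

/-- Starting with `j`, the first of the `m + 1` numbers `j, j + 1, .., j + m` where `g` is false;
`j + m` if there is none among the first `m`. -/
def ff (g : ℕ → Bool) : ℕ → ℕ → ℕ
  | 0, j => j
  | m + 1, j => bif g j then ff g m (j + 1) else j

/-- The number of the edge chosen at `v` by a strategy. -/
def ch {N : ℕ} (L : ℕ) (σ : Fin N → Bool) (v : ℕ) : ℕ := ff (fun j => rd σ (bs L v j)) (L - 1) 0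

/-- The edge taken at `v` under two strategies of the simple stochastic game. -/
def mv (I : Arena × ℕ) (σ τ : Fin (toS I).1.length → Bool) (v : ℕ) : WEdge :=
  edgeAt I.1 v (bif owner I.1 v then ch (lenI I) σ v else ch (lenI I) τ v)

end Pool.Agent.Work.MP_85af13_lc.G.E
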