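import Pool.Agent.Work.MP_85af13_lc.G.E.Val

/-!
# Module DiscC (size S): chains of average nodes with a common exit

Induction on `k` for all `q`: `k = 0` trivial; `k + 1`: `V_avg` at `q` (entry `i = 0`) gives
`V q = (V u + V (q + 1)) / 2` and the induction hypothesis for `q + 1`.
-/

set_option autoImplicit false

namespace Pool.Agent.Work.MP_85af13_lc.G.E

open Pool.Agent.Work.PolyTime

theorem disc_chain (S : SInst) (σ τ : Fin S.1.length → Bool) (u : ℕ ⊕ Bool) :
    ∀ (k q : ℕ), q + k ≤ S.1.length →
      (∀ i < k, S.1.getD (q + i) dNd = (none, u, Sum.inl (q + i + 1))) →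
      V S σ τ (Sum.inl q) = (1 - (1 / 2) ^ k) * V S σ τ u +
        (1 / 2) ^ k * V S σ τ (Sum.inl (q + k)) := by
  intro k
  induction k with
  | zero => intro q _ _; simp
  | succ k ih =>
    intro q hq h
    have h0 := h 0 (Nat.succ_pos k)
    rw [Nat.add_zero] at h0
    rw [V_avg S σ τ (by omega) h0]
    rw [ih (q + 1) (by omega) (fun i hi => by
      have := h (i + 1) (by omega)
      rw [show q + 1 + i = q + (i + 1) by omega, show q + (i + 1) + 1 = q + (i + 1) + 1 from rfl]
      exact this)]
    rw [show q + 1 + k = q + (k + 1) by omega, pow_succ]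
    ring

end Pool.Agent.Work.MP_85af13_lc.G.E
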