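import Pool.Agent.Work.MP_85af13_lc.G.E.Defs

/-!
# Module Get (size M): the entries of the list `(toS I).1`

General fact (prove it as a private lemma): if all lists `f v` have length `B`, then
`(List.range n).flatMap f` has length `n * B` and its entry `v * B + r` (`v < n`, `r < B`) is the entry `r` of `f v`
(induction on `n` with `List.range_succ`, `List.flatMap_append`, `List.getD_append`, `List.getD_append_right`, or by
`List.getElem?_append`). Apply it to the inner `flatMap` (`B = 4 L + 5`), then to the outer one
(`B = L * (4 L + 5)`): `bs L v j + i = (2 L + 3) + (v * (L * (4 L + 5)) + (j * (4 L + 5) + i))`.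
`bs_inj`: cancel `2 L + 3` and `4 L + 5 > 0`; `v * L + j = v' * L + j'` with `j, j' < L` (division by `L`).
-/

set_option autoImplicit false

namespace Pool.Agent.Work.MP_85af13_lc.G.E

open Pool.Agent.Work.PolyTime

private theorem len_fm {α : Type} (f : ℕ → List α) (B n : ℕ) (hf : ∀ v, (f v).length = B) :
    ((List.range n).flatMap f).length = n * B := by
  induction n with
  | zero => simp
  | succ n ih =>
    rw [List.range_succ, List.flatMap_append, List.length_append, ih, List.flatMap_cons,
      List.flatMap_nil, List.append_nil, hf]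
    ring

private theorem getD_fm {α : Type} (f : ℕ → List α) (B n : ℕ) (hf : ∀ v, (f v).length = B) (d : α)
    {v r : ℕ} (hv : v < n) (hr : r < B) :
    ((List.range n).flatMap f).getD (v * B + r) d = (f v).getD r d := by
  induction n with
  | zero => exact absurd hv (Nat.not_lt_zero v)
  | succ n ih =>
    have hlen := len_fm f B n hf
    rw [List.range_succ, List.flatMap_append, List.flatMap_cons, List.flatMap_nil, List.append_nil]
    rcases Nat.lt_or_ge v n with h | h
    · have h1 : v * B + r < n * B := by
        have : (v + 1) * B ≤ n * B := Nat.mul_le_mul_right B h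
        rw [Nat.add_mul, one_mul] at this
        omega
      rw [List.getD_append _ _ _ _ (by rw [hlen]; exact h1)]
      exact ih h
    · have h1 : v = n := by omega
      subst h1
      rw [List.getD_append_right _ _ _ _ (by rw [hlen]; omega), hlen]
      congr 1
      omega

private theorem getD_mr {α : Type} (f : ℕ → α) (n : ℕ) (d : α) {i : ℕ} (hi : i < n) :
    ((List.range n).map f).getD i d = f i := by
  rw [List.getD_eq_getElem _ _ (by rw [List.length_map, List.length_range]; exact hi),
    List.getElem_map, List.getElem_range]

variable (I : Arena × ℕ)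

private theorem len_in (v j : ℕ) :
    ((List.range (4 * lenI I + 5)).map fun i => blk I v j i).length = 4 * lenI I + 5 := by
  rw [List.length_map, List.length_range]

private theorem len_mid (v : ℕ) :
    ((List.range (lenI I)).flatMap fun j =>
      (List.range (4 * lenI I + 5)).map fun i => blk I v j i).length =
      lenI I * (4 * lenI I + 5) :=
  len_fm _ _ _ fun j => len_in I v j

theorem toS_length : (toS I).1.length =
    (2 * lenI I + 3) + I.1.length * (lenI I * (4 * lenI I + 5)) := by
  unfold toS
  rw [List.length_append, List.length_map, List.length_range,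
    len_fm _ _ _ fun v => len_mid I v]

theorem toS_hd {i : ℕ} (hi : i < 2 * lenI I + 3) : (toS I).1.getD i dNd = hd I i := by
  unfold toS
  rw [List.getD_append _ _ _ _ (by rw [List.length_map, List.length_range]; exact hi),
    getD_mr _ _ _ hi]

theorem toS_blk {v j i : ℕ} (hv : v < I.1.length) (hj : j < lenI I) (hi : i < 4 * lenI I + 5) :
    (toS I).1.getD (bs (lenI I) v j + i) dNd = blk I v j i := by
  unfold toS
  have hl : ((List.range (2 * lenI I + 3)).map (hd I)).length = 2 * lenI I + 3 := by
    rw [List.length_map, List.length_range]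
  have e : bs (lenI I) v j + i - (2 * lenI I + 3) =
      v * (lenI I * (4 * lenI I + 5)) + (j * (4 * lenI I + 5) + i) := by
    unfold bs
    have : (v * lenI I + j) * (4 * lenI I + 5) =
        v * (lenI I * (4 * lenI I + 5)) + j * (4 * lenI I + 5) := by ring
    omega
  have hj' : j * (4 * lenI I + 5) + i < lenI I * (4 * lenI I + 5) := by
    have : (j + 1) * (4 * lenI I + 5) ≤ lenI I * (4 * lenI I + 5) := Nat.mul_le_mul_right _ hj
    rw [Nat.add_mul, one_mul] at this
    omega
  rw [List.getD_append_right _ _ _ _ (by rw [hl]; unfold bs; omega), hl, e,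
    getD_fm _ _ _ (fun v => len_mid I v) dNd hv hj',
    getD_fm _ _ _ (fun j => len_in I v j) dNd hj hi, getD_mr _ _ _ hi]

theorem bs_lt {v j i : ℕ} (hv : v < I.1.length) (hj : j < lenI I) (hi : i ≤ 4 * lenI I + 5) :
    bs (lenI I) v j + i ≤ (toS I).1.length := by
  rw [toS_length]
  unfold bs
  have h1 : v * lenI I + j + 1 ≤ I.1.length * lenI I := by
    have : (v + 1) * lenI I ≤ I.1.length * lenI I := Nat.mul_le_mul_right _ hv
    rw [Nat.add_mul, one_mul] at this
    omega
  have h2 : (v * lenI I + j + 1) * (4 * lenI I + 5) ≤
      I.1.length * lenI I * (4 * lenI I + 5) := Nat.mul_le_mul_right _ h1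
  have h3 : (v * lenI I + j + 1) * (4 * lenI I + 5) =
      (v * lenI I + j) * (4 * lenI I + 5) + (4 * lenI I + 5) := by ring
  have h4 : I.1.length * lenI I * (4 * lenI I + 5) =
      I.1.length * (lenI I * (4 * lenI I + 5)) := by ring
  omega

theorem bs_inj {L v j v' j' : ℕ} (hj : j < L) (hj' : j' < L) (h : bs L v j = bs L v' j') :
    v = v' ∧ j = j' := by
  unfold bs at h
  have h1 : (v * L + j) * (4 * L + 5) = (v' * L + j') * (4 * L + 5) := by omega
  have h2 : v * L + j = v' * L + j' := Nat.eq_of_mul_eq_mul_right (by omega) h1
  have h3 : (v * L + j) / L = v := by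
    rw [add_comm, Nat.add_mul_div_right _ _ (by omega), Nat.div_eq_of_lt hj, zero_add]
  have h4 : (v' * L + j') / L = v' := by
    rw [add_comm, Nat.add_mul_div_right _ _ (by omega), Nat.div_eq_of_lt hj', zero_add]
  have h5 : v = v' := by rw [← h3, h2, h4]
  refine ⟨h5, ?_⟩
  subst h5
  omega

end Pool.Agent.Work.MP_85af13_lc.G.E
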