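import Pool.Agent.Work.MP_85af13_lc.G.E.Val
import Pool.Agent.Work.MP_85af13_lc.G.E.Get

/-!
# Module PlC (size M): player nodes

* `ff_ge`, `ff_le`: induction on `m` generalizing `j`. `ff_choose`: induction on `m` generalizing `j`: if `j = c`
  then `g j = false` (or `m = 0`) and `ff = j`; if `j < c` then `m > 0` (as `c ≤ j + m`) and `g j = true`.
* `pl_chain`: let `g j = rd ρ (bs L v j)`, `ρ = σ` or `τ` according to `owner I.1 v`. Claim for all `m`, `j` with
  `j + m = L - 1`: `V (bs L v j) = V (bs L v (ff g m j) + 1)`. Induction on `m`: by `toS_blk` with `i = 0` and `blk` the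
  entry of `bs L v j` is `(some (owner I.1 v), Sum.inl (bs L v j + 1), ..)`; `V_pl`. For `m = 0` (`j + 1 = L`) both
  successors are `bs L v j + 1`; for `m + 1` the second successor is `bs L v (j + 1)`.
-/

set_option autoImplicit false

namespace Pool.Agent.Work.MP_85af13_lc.G.E

open Pool.Agent.Work.PolyTime

theorem ff_ge (g : ℕ → Bool) (m j : ℕ) : j ≤ ff g m j := by
  induction m generalizing j with
  | zero => exact le_rfl
  | succ m ih =>
    unfold ff
    cases g j
    · exact le_rfl
    · exact (Nat.le_succ j).trans (ih (j + 1))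

theorem ff_le (g : ℕ → Bool) (m j : ℕ) : ff g m j ≤ j + m := by
  induction m generalizing j with
  | zero => exact le_rfl
  | succ m ih =>
    unfold ff
    cases g j
    · exact Nat.le_add_right j _
    · exact (ih (j + 1)).trans (by omega)

theorem ff_choose {g : ℕ → Bool} {c m j : ℕ} (h1 : j ≤ c) (h2 : c ≤ j + m)
    (hg : ∀ i, j ≤ i → i < c → g i = true) (hc : g c = false) : ff g m j = c := by
  induction m generalizing j with
  | zero => exact le_antisymm h1 h2
  | succ m ih =>
    unfold ff
    rcases Nat.lt_or_ge j c with h | h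
    · rw [hg j le_rfl h]
      exact ih h (by omega) (fun i hi hic => hg i (by omega) hic)
    · obtain rfl : j = c := le_antisymm h1 h
      rw [hc]
      rfl

theorem ch_lt {N L : ℕ} (hL : 0 < L) (σ : Fin N → Bool) (v : ℕ) : ch L σ v < L := by
  have := ff_le (fun j => rd σ (bs L v j)) (L - 1) 0
  unfold ch
  omega

private theorem chain_aux (I : Arena × ℕ) (σ τ : Fin (toS I).1.length → Bool) {v : ℕ}
    (hv : v < I.1.length) (m : ℕ) : ∀ j, j + m + 1 = lenI I →
      V (toS I) σ τ (Sum.inl (bs (lenI I) v j)) =
      V (toS I) σ τ (Sum.inl (bs (lenI I) v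
        (ff (fun j => bif owner I.1 v then rd σ (bs (lenI I) v j) else rd τ (bs (lenI I) v j))
          m j) + 1)) := by
  induction m with
  | zero =>
    intro j hj
    have hj' : j < lenI I := by omega
    have hq : bs (lenI I) v j < (toS I).1.length := by
      have := bs_lt I hv hj' (i := 1) (by omega)
      omega
    have hb := toS_blk I hv hj' (i := 0) (by omega)
    rw [Nat.add_zero] at hb
    have hblk : blk I v j 0 = (some (owner I.1 v), Sum.inl (bs (lenI I) v j + 1),
        Sum.inl (bs (lenI I) v j + 1)) := by
      unfold blk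
      have : ¬ (j + 1 < lenI I) := by omega
      simp [this]
    rw [hblk] at hb
    rw [V_pl (toS I) σ τ hq hb]
    split_ifs <;> rfl
  | succ m ih =>
    intro j hj
    have hj' : j < lenI I := by omega
    have hq : bs (lenI I) v j < (toS I).1.length := by
      have := bs_lt I hv hj' (i := 1) (by omega)
      omega
    have hb := toS_blk I hv hj' (i := 0) (by omega)
    rw [Nat.add_zero] at hb
    have hblk : blk I v j 0 = (some (owner I.1 v), Sum.inl (bs (lenI I) v j + 1),
        Sum.inl (bs (lenI I) v (j + 1))) := by
      unfold blk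
      have : j + 1 < lenI I := by omega
      simp [this]
    rw [hblk] at hb
    rw [V_pl (toS I) σ τ hq hb]
    show _ = V (toS I) σ τ (Sum.inl (bs (lenI I) v
      (bif (bif owner I.1 v then rd σ (bs (lenI I) v j) else rd τ (bs (lenI I) v j)) then
        ff (fun j => bif owner I.1 v then rd σ (bs (lenI I) v j) else rd τ (bs (lenI I) v j))
          m (j + 1) else j) + 1))
    cases (bif owner I.1 v then rd σ (bs (lenI I) v j) else rd τ (bs (lenI I) v j))
    · simp only [Bool.false_eq_true, if_false, cond_false]
    · simp only [if_true, cond_true]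
      exact ih (j + 1) (by omega)

theorem pl_chain (I : Arena × ℕ) (hL : 0 < lenI I) (σ τ : Fin (toS I).1.length → Bool) {v : ℕ}
    (hv : v < I.1.length) : V (toS I) σ τ (Sum.inl (bs (lenI I) v 0)) =
      V (toS I) σ τ (Sum.inl (bs (lenI I) v
        (bif owner I.1 v then ch (lenI I) σ v else ch (lenI I) τ v) + 1)) := by
  rw [chain_aux I σ τ hv (lenI I - 1) 0 (by omega)]
  unfold ch
  cases owner I.1 v <;> rfl

end Pool.Agent.Work.MP_85af13_lc.G.E
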