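import Pool.Agent.Work.MP_85af13_lc.G.E.Defs

/-!
# Module Rew (size M): two sums of digits

`binVal l = ∑ i < L, digit i * 2 ^ i` for `l.length ≤ L` (induction on `l` generalizing `L`, digits
`l.getD i false`; private lemma). `rew_sum`: for `e.2.1 = false` the digit `0` is `1` and the digit `r ≥ 1` is
`e.2.2.getD (L - r) false`; reflect the sum over `r = 1, .., L` (`Finset.sum_range_reflect`): the sum is
`1/2 + binVal / 2 ^ (L + 1)`. For `e.2.1 = true` all digits are complemented: the sum of `(1 - d r) (1/2)^(r+1)` is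
`1 - (1/2)^(L+1) - (1/2 + |w| (1/2)^(L+1))`, plus `(1/2)^(L+1)`, and `wgt e = - binVal`.
`thr_sum`: only `r = 0` and `r = 2 L + 1` contribute (for `L = 0` too: these are two different numbers).
-/

set_option autoImplicit false

namespace Pool.Agent.Work.MP_85af13_lc.G.E

open Pool.Agent.Work.PolyTime

private theorem dsum (L : ℕ) : ∀ l : List Bool, l.length ≤ L →
    ∑ r ∈ Finset.range L, (if l.getD (L - (r + 1)) false then (1 : ℝ) else 0) *
      (1 / 2) ^ (r + 1 + 1) = (binVal l : ℝ) * (1 / 2) ^ (L + 1) := by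
  induction L with
  | zero =>
    intro l h
    have hl : l = [] := List.length_eq_zero_iff.mp (Nat.le_zero.mp h)
    subst hl
    simp [binVal]
  | succ L ih =>
    intro l h
    rw [Finset.sum_range_succ]
    cases l with
    | nil => simp [binVal]
    | cons b l =>
      have h1 : ∑ r ∈ Finset.range L, (if (b :: l).getD (L + 1 - (r + 1)) false then (1 : ℝ) else 0) *
          (1 / 2) ^ (r + 1 + 1) = ∑ r ∈ Finset.range L, (if l.getD (L - (r + 1)) false
          then (1 : ℝ) else 0) * (1 / 2) ^ (r + 1 + 1) := by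
        refine Finset.sum_congr rfl fun r hr => ?_
        have hr' : r < L := Finset.mem_range.mp hr
        have h2 : L + 1 - (r + 1) = (L - (r + 1)) + 1 := by omega
        rw [h2, List.getD_cons_succ]
      rw [h1, ih l (by simpa using h), show L + 1 - (L + 1) = 0 by omega, List.getD_cons_zero]
      cases b
      · simp only [binVal, Bool.toNat_false, Bool.false_eq_true, if_false, pow_succ]
        push_cast
        ring
      · simp only [binVal, Bool.toNat_true, if_true, pow_succ]
        push_cast
        ring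

private theorem gsum (L : ℕ) : ∑ r ∈ Finset.range (L + 1), (1 / 2 : ℝ) ^ (r + 1) =
    1 - (1 / 2) ^ (L + 1) := by
  induction L with
  | zero => norm_num
  | succ L ih => rw [Finset.sum_range_succ, ih, pow_succ (1 / 2 : ℝ) (L + 1)]; ring

private theorem psum (L : ℕ) (l : List Bool) (h : l.length ≤ L) :
    ∑ r ∈ Finset.range (L + 1), (if (decide (r = 0) || l.getD (L - r) false) = true
      then (1 : ℝ) else 0) * (1 / 2) ^ (r + 1) = 1 / 2 + (binVal l : ℝ) * (1 / 2) ^ (L + 1) := by
  rw [Finset.sum_range_succ', ← dsum L l h, add_comm]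
  congr 1
  simp

theorem rew_sum (L : ℕ) (e : WEdge) (h : e.2.2.length ≤ L) :
    ∑ r ∈ Finset.range (L + 1), (if rbit L e r then (1 : ℝ) else 0) * (1 / 2) ^ (r + 1) +
      (if e.2.1 then (1 : ℝ) else 0) * (1 / 2) ^ (L + 1) =
      1 / 2 + (wgt e : ℝ) * (1 / 2) ^ (L + 1) := by
  have hp := psum L e.2.2 h
  obtain ⟨u, s, l⟩ := e
  cases s
  · simp only [rbit, Bool.false_bne, wgt, Bool.false_eq_true, if_false,
      Int.cast_natCast, zero_mul, add_zero]
    exact hp
  · simp only [rbit, wgt, Bool.true_xor, if_true, Int.cast_neg, Int.cast_natCast, one_mul]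
    have hc : ∀ r, (if (!(decide (r = 0) || l.getD (L - r) false)) = true then (1 : ℝ) else 0) *
        (1 / 2) ^ (r + 1) = (1 / 2) ^ (r + 1) - (if (decide (r = 0) || l.getD (L - r) false) = true
        then (1 : ℝ) else 0) * (1 / 2) ^ (r + 1) := by
      intro r
      cases (decide (r = 0) || l.getD (L - r) false) <;> simp
    rw [Finset.sum_congr rfl fun r _ => hc r, Finset.sum_sub_distrib, gsum, hp]
    ring

theorem thr_sum (L : ℕ) :
    ∑ r ∈ Finset.range (2 * L + 2), (if (decide (r = 0) || decide (r = 2 * L + 1)) = true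
      then (1 : ℝ) else 0) * (1 / 2) ^ (r + 1) = 1 / 2 + (1 / 2) ^ (2 * L + 2) := by
  rw [Finset.sum_range_succ, Finset.sum_range_succ']
  have h1 : ∑ k ∈ Finset.range (2 * L), (if (decide (k + 1 = 0) || decide (k + 1 = 2 * L + 1)) = true
      then (1 : ℝ) else 0) * (1 / 2) ^ (k + 1 + 1) = 0 := by
    refine Finset.sum_eq_zero fun k hk => ?_
    have hk' : k < 2 * L := Finset.mem_range.mp hk
    have h2 : (decide (k + 1 = 0) || decide (k + 1 = 2 * L + 1)) = false := by
      rw [Bool.or_eq_false_iff]
      exact ⟨decide_eq_false (by omega), decide_eq_false (by omega)⟩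
    rw [h2]
    simp
  rw [h1]
  simp

end Pool.Agent.Work.MP_85af13_lc.G.E
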