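import Pool.Agent.Work.MP_85af13_lc.G.E.BitC
import Pool.Agent.Work.MP_85af13_lc.G.E.DiscC
import Pool.Agent.Work.MP_85af13_lc.G.E.PlC
import Pool.Agent.Work.MP_85af13_lc.G.E.Rew
import Pool.Agent.Work.MP_85af13_lc.G.E.Bnd

/-!
# Module Eqn (size M): the equations of the values of the player nodes

Let `L = lenI I`, `c` the chosen number at `v` (`ch_lt`), `e = mv I σ τ v = edgeAt I.1 v c`, `e ∈ edges I.1 v`
(`edgeAt_mem`, `h.2.1`), `e.2.2.length ≤ L` (`wlen_lt`).
* `eqn`: `pl_chain`: the value is that of `bs L v c + 1`. `disc_chain` with `q = bs L v c + 1`, `k = 3 L + 3`,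
  `u = Sum.inl (bs L e.1 0)` (entries: `toS_blk` with `i + 1`, second case of `blk`). `bit_chain` with
  `q = bs L v c + 1 + (3 L + 3)`, `m = L + 1`, `b = rbit L e`, `f = e.2.1` (entries: `toS_blk` with
  `3 L + 4 + i`, third case). `rew_sum`.
* `start`: `toS_hd` with `i = 0` and `V_avg`; `bit_chain` with `q = 1`, `m = 2 L + 2`,
  `b r = decide (r = 0) || decide (r = 2 L + 1)`, `f = false` (entries: `toS_hd` with `i + 1`), `thr_sum`.
-/

set_option autoImplicit false

namespace Pool.Agent.Work.MP_85af13_lc.G.E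

open Pool.Agent.Work.PolyTime

theorem eqn (I : Arena × ℕ) (h : MPWF I) (σ τ : Fin (toS I).1.length → Bool) {v : ℕ}
    (hv : v < I.1.length) : V (toS I) σ τ (Sum.inl (bs (lenI I) v 0)) =
      (1 - (1 / 2) ^ (3 * lenI I + 3)) *
        V (toS I) σ τ (Sum.inl (bs (lenI I) (mv I σ τ v).1 0)) +
      (1 / 2) ^ (3 * lenI I + 3) *
        (1 / 2 + (wgt (mv I σ τ v) : ℝ) * (1 / 2) ^ (lenI I + 1)) := by
  have hL : 0 < lenI I := lenI_pos
  obtain ⟨c, hcdef⟩ : ∃ c, c = bif owner I.1 v then ch (lenI I) σ v else ch (lenI I) τ v :=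
    ⟨_, rfl⟩
  have hc : c < lenI I := by
    rw [hcdef]
    cases owner I.1 v
    · exact ch_lt hL τ v
    · exact ch_lt hL σ v
  have hmv : mv I σ τ v = edgeAt I.1 v c := by rw [mv, hcdef]
  rw [pl_chain I hL σ τ hv, ← hcdef, hmv]
  have hmem : edgeAt I.1 v c ∈ edges I.1 v := edgeAt_mem (h.2.1 v hv) c
  have hlen : (edgeAt I.1 v c).2.2.length ≤ lenI I := (wlen_lt hv hmem).le
  have hbd : bs (lenI I) v c + (4 * lenI I + 5) ≤ (toS I).1.length := bs_lt I hv hc le_rfl
  -- the exit chain
  have h1 := disc_chain (toS I) σ τ (Sum.inl (bs (lenI I) (edgeAt I.1 v c).1 0)) (3 * lenI I + 3)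
    (bs (lenI I) v c + 1) (by omega) (fun i hi => by
      have h2 := toS_blk I hv hc (i := i + 1) (by omega)
      rw [show bs (lenI I) v c + 1 + i = bs (lenI I) v c + (i + 1) by omega, h2, blk]
      have d1 : decide (i + 1 = 0) = false := by simp
      have d2 : decide (i + 1 < 3 * lenI I + 4) = true := by
        rw [decide_eq_true_eq]
        omega
      rw [d1, cond_false, d2, cond_true])
  -- the digits
  have h3 := bit_chain (toS I) σ τ (edgeAt I.1 v c).2.1 (lenI I + 1)
    (bs (lenI I) v c + 1 + (3 * lenI I + 3)) (rbit (lenI I) (edgeAt I.1 v c)) (Nat.succ_pos _)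
    (by omega) (fun i hi => by
      have h2 := toS_blk I hv hc (i := 3 * lenI I + 4 + i) (by omega)
      rw [show bs (lenI I) v c + 1 + (3 * lenI I + 3) + i = bs (lenI I) v c + (3 * lenI I + 4 + i) by
        omega, h2, blk]
      have d1 : decide (3 * lenI I + 4 + i = 0) = false := by
        rw [decide_eq_false_iff_not]
        omega
      have d2 : decide (3 * lenI I + 4 + i < 3 * lenI I + 4) = false := by
        rw [decide_eq_false_iff_not]
        omega
      have d3 : 3 * lenI I + 4 + i - (3 * lenI I + 4) = i := by omega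
      rw [d1, cond_false, d2, cond_false, d3]
      by_cases hc' : i + 1 < lenI I + 1
      · have d4 : decide (3 * lenI I + 4 + i + 1 < 4 * lenI I + 5) = true := by
          rw [decide_eq_true_eq]
          omega
        rw [d4, cond_true, if_pos hc']
      · have d4 : decide (3 * lenI I + 4 + i + 1 < 4 * lenI I + 5) = false := by
          rw [decide_eq_false_iff_not]
          omega
        rw [d4, cond_false, if_neg hc'])
  rw [h1, h3, rew_sum _ _ hlen]

theorem start (I : Arena × ℕ) (σ τ : Fin (toS I).1.length → Bool) :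
    V (toS I) σ τ (Sum.inl 0) = (V (toS I) σ τ (Sum.inl (bs (lenI I) I.2 0)) +
      (1 / 2 + (1 / 2) ^ (2 * lenI I + 2))) / 2 := by
  have hlen := toS_length I
  have h0 : (toS I).1.getD 0 dNd = (none, Sum.inl (bs (lenI I) I.2 0), Sum.inl 1) := by
    rw [toS_hd I (by omega)]
    rfl
  rw [V_avg (toS I) σ τ (by omega) h0]
  have h3 := bit_chain (toS I) σ τ false (2 * lenI I + 2) 1
    (fun r => decide (r = 0) || decide (r = 2 * lenI I + 1)) (Nat.succ_pos _) (by omega)
    (fun i hi => by
      rw [toS_hd I (by omega), hd]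
      have d1 : decide (1 + i = 0) = false := by
        rw [decide_eq_false_iff_not]
        omega
      have d2 : decide (1 + i = 1) = decide (i = 0) := by
        rw [decide_eq_decide]
        omega
      have d3 : decide (1 + i = 2 * lenI I + 2) = decide (i = 2 * lenI I + 1) := by
        rw [decide_eq_decide]
        omega
      rw [d1, cond_false, d2, d3]
      by_cases hc' : i + 1 < 2 * lenI I + 2
      · have d4 : decide (1 + i < 2 * lenI I + 2) = true := by
          rw [decide_eq_true_eq]
          omega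
        rw [d4, cond_true, if_pos hc']
      · have d4 : decide (1 + i < 2 * lenI I + 2) = false := by
          rw [decide_eq_false_iff_not]
          omega
        rw [d4, cond_false, if_neg hc'])
  rw [h3, thr_sum]
  simp

end Pool.Agent.Work.MP_85af13_lc.G.E
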