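import Pool.Agent.Work.MP_85af13_lc.G.E.Defs

/-!
# Module LasB (size M): discounted sums of ultimately periodic sequences (elementary analysis)

By induction `z t = (1 - β) ∑ r < i, β^r a (t + r) + β^i z (t + i)` (1).
With `t = i`, length `l` and `hp`: `(1 - β^l) z i = (1 - β) ∑ r < l, β^r a (i + r)` (2). `0 < 1 - β^l`,
`1 - β^r ≤ 1 - β^l` for `r ≤ l`, `1 - β^l ≤ l (1 - β)` (Bernoulli: `one_add_mul_le_pow`, or
`1 - β^l = (1 - β) ∑ β^r`).
* `low`: `∑ β^r a = ∑ a - ∑ (1 - β^r) a ≥ - l (1 - β^l) W`, so `z i ≥ - (1 - β) l W`; in (1) with `t = 0` the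
  sum is at least `- i W` and `β^i ≤ 1`: `z 0 ≥ - (1 - β) (i + l) W ≥ - (1 - β) n W`.
* `up`: `∑ β^r a ≤ -1 + l (1 - β^l) W`, so `z i ≤ - (1 - β) / (1 - β^l) + (1 - β) l W ≤ - 1 / l + (1 - β) l W`, and
  `|z i| ≤ W` by (2). In (1) with `t = 0`: `β^i z i ≤ z i + (1 - β^i) W ≤ z i + i (1 - β) W`, so
  `z 0 ≤ z i + 2 i (1 - β) W ≤ - 1 / l + (1 - β) (l + 2 i) W ≤ - 1 / n + 2 (1 - β) n W`.
-/

set_option autoImplicit false

namespace Pool.Agent.Work.MP_85af13_lc.G.E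

open Pool.Agent.Work.PolyTime

variable {β W : ℝ} {a z : ℕ → ℝ} {n i l : ℕ}

private theorem unroll (hz : ∀ t, z t = β * z (t + 1) + (1 - β) * a t) : ∀ k t,
    z t = (1 - β) * ∑ r ∈ Finset.range k, β ^ r * a (t + r) + β ^ k * z (t + k) := by
  intro k
  induction k with
  | zero => intro t; simp
  | succ k ih =>
    intro t
    rw [Finset.sum_range_succ, pow_succ, ← Nat.add_assoc]
    have h1 := ih t
    have h2 := hz (t + k)
    rw [h1, h2]
    ring

private theorem bern (h0 : 0 < β) (k : ℕ) : 1 - β ^ k ≤ k * (1 - β) := by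
  have h := one_add_mul_le_pow (a := β - 1) (by linarith) k
  rw [show 1 + (β - 1) = β by ring] at h
  linarith

private theorem sdiff (h0 : 0 < β) (h1 : β < 1) (ha : ∀ t, |a t| ≤ W) :
    |∑ r ∈ Finset.range l, β ^ r * a (i + r) - ∑ r ∈ Finset.range l, a (i + r)| ≤
      l * (1 - β ^ l) * W := by
  rw [← Finset.sum_sub_distrib]
  refine (Finset.abs_sum_le_sum_abs _ _).trans ?_
  have h : ∀ r ∈ Finset.range l, |β ^ r * a (i + r) - a (i + r)| ≤ (1 - β ^ l) * W := by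
    intro r hr
    have hr' : r ≤ l := (Finset.mem_range.mp hr).le
    have e : β ^ r * a (i + r) - a (i + r) = -((1 - β ^ r) * a (i + r)) := by ring
    have p1 : β ^ r ≤ 1 := pow_le_one₀ h0.le h1.le
    have p2 : β ^ l ≤ β ^ r := pow_le_pow_of_le_one h0.le h1.le hr'
    rw [e, abs_neg, abs_mul, abs_of_nonneg (by linarith : 0 ≤ 1 - β ^ r)]
    exact mul_le_mul (by linarith) (ha _) (abs_nonneg _) (by linarith)
  refine (Finset.sum_le_sum h).trans (le_of_eq ?_)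
  rw [Finset.sum_const, Finset.card_range, nsmul_eq_mul]
  ring

private theorem hsum (h0 : 0 < β) (h1 : β < 1) (ha : ∀ t, |a t| ≤ W) (k t : ℕ) :
    |∑ r ∈ Finset.range k, β ^ r * a (t + r)| ≤ k * W := by
  refine (Finset.abs_sum_le_sum_abs _ _).trans ?_
  have h : ∀ r ∈ Finset.range k, |β ^ r * a (t + r)| ≤ W := by
    intro r _
    have p0 : 0 ≤ β ^ r := pow_nonneg h0.le r
    have p1 : β ^ r ≤ 1 := pow_le_one₀ h0.le h1.le
    rw [abs_mul, abs_of_nonneg p0]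
    calc β ^ r * |a (t + r)| ≤ 1 * |a (t + r)| := mul_le_mul_of_nonneg_right p1 (abs_nonneg _)
      _ = |a (t + r)| := one_mul _
      _ ≤ W := ha _
  refine (Finset.sum_le_sum h).trans (le_of_eq ?_)
  rw [Finset.sum_const, Finset.card_range, nsmul_eq_mul]

theorem low (h0 : 0 < β) (h1 : β < 1) (hW : 0 ≤ W) (ha : ∀ t, |a t| ≤ W)
    (hz : ∀ t, z t = β * z (t + 1) + (1 - β) * a t) (hl : 0 < l) (hil : i + l ≤ n)
    (hp : z (i + l) = z i) (hs : 0 ≤ ∑ r ∈ Finset.range l, a (i + r)) :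
    -((1 - β) * n * W) ≤ z 0 := by
  have hb : 0 < 1 - β := by linarith
  have hl1 : 0 < 1 - β ^ l := by linarith [pow_lt_one₀ h0.le h1 hl.ne']
  have e1 := unroll hz l i
  rw [hp] at e1
  have e2 := unroll hz i 0
  simp only [Nat.zero_add] at e2
  have d1 := (abs_le.mp (sdiff (i := i) (l := l) h0 h1 ha)).1
  have d2 := (abs_le.mp (hsum h0 h1 ha i 0)).1
  simp only [Nat.zero_add] at d2
  set S := ∑ r ∈ Finset.range l, β ^ r * a (i + r) with hS
  set T := ∑ r ∈ Finset.range i, β ^ r * a r with hT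
  have hS' : -(l * (1 - β ^ l) * W) ≤ S := by linarith
  have h3 : (1 - β) * (-(l * (1 - β ^ l) * W)) ≤ (1 - β) * S := mul_le_mul_of_nonneg_left hS' hb.le
  have h4 : -((1 - β) * l * W) ≤ z i := by
    have : (1 - β ^ l) * (-((1 - β) * l * W)) ≤ (1 - β ^ l) * z i := by linarith
    exact le_of_mul_le_mul_left this hl1
  have h5 : (1 - β) * (-(i * W)) ≤ (1 - β) * T := mul_le_mul_of_nonneg_left d2 hb.le
  have p0 : 0 ≤ β ^ i := pow_nonneg h0.le i
  have p1 : β ^ i ≤ 1 := pow_le_one₀ h0.le h1.le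
  have h6 : β ^ i * (-((1 - β) * l * W)) ≤ β ^ i * z i := mul_le_mul_of_nonneg_left h4 p0
  have h7 : β ^ i * ((1 - β) * l * W) ≤ 1 * ((1 - β) * l * W) :=
    mul_le_mul_of_nonneg_right p1 (by positivity)
  have h8 : ((i : ℝ) + l) * ((1 - β) * W) ≤ n * ((1 - β) * W) := by
    refine mul_le_mul_of_nonneg_right ?_ (by positivity)
    exact_mod_cast hil
  linarith

theorem up (h0 : 0 < β) (h1 : β < 1) (hW : 0 ≤ W) (ha : ∀ t, |a t| ≤ W)
    (hz : ∀ t, z t = β * z (t + 1) + (1 - β) * a t) (hl : 0 < l) (hil : i + l ≤ n)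
    (hp : z (i + l) = z i) (hs : ∑ r ∈ Finset.range l, a (i + r) ≤ -1) :
    z 0 ≤ -(1 / n) + 2 * (1 - β) * n * W := by
  have hb : 0 < 1 - β := by linarith
  have hl1 : 0 < 1 - β ^ l := by linarith [pow_lt_one₀ h0.le h1 hl.ne']
  have hl0 : (0 : ℝ) < l := by exact_mod_cast hl
  have hn0 : (0 : ℝ) < n := by exact_mod_cast (by omega : 0 < n)
  have e1 := unroll hz l i
  rw [hp] at e1
  have e2 := unroll hz i 0
  simp only [Nat.zero_add] at e2
  have d1 := (abs_le.mp (sdiff (i := i) (l := l) h0 h1 ha)).2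
  have d2 := (abs_le.mp (hsum h0 h1 ha i 0)).2
  simp only [Nat.zero_add] at d2
  have g1 : |∑ r ∈ Finset.range l, β ^ r * a (i + r)| ≤ (∑ r ∈ Finset.range l, β ^ r) * W := by
    refine (Finset.abs_sum_le_sum_abs _ _).trans ?_
    rw [Finset.sum_mul]
    refine Finset.sum_le_sum fun r _ => ?_
    rw [abs_mul, abs_of_nonneg (pow_nonneg h0.le r)]
    exact mul_le_mul_of_nonneg_left (ha _) (pow_nonneg h0.le r)
  have g2 : (∑ r ∈ Finset.range l, β ^ r) * (1 - β) = 1 - β ^ l := geom_sum_mul_neg β l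
  have g3 := (abs_le.mp g1).1
  set S := ∑ r ∈ Finset.range l, β ^ r * a (i + r) with hS
  set T := ∑ r ∈ Finset.range i, β ^ r * a r with hT
  set G := ∑ r ∈ Finset.range l, β ^ r with hG
  have hzW : -W ≤ z i := by
    have q1 : (1 - β) * (-(G * W)) ≤ (1 - β) * S := mul_le_mul_of_nonneg_left g3 hb.le
    have q2 : (1 - β ^ l) * (-W) ≤ (1 - β ^ l) * z i := by
      have : (1 - β) * (-(G * W)) = (1 - β ^ l) * (-W) := by rw [← g2]; ring
      linarith
    exact le_of_mul_le_mul_left q2 hl1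
  have hS' : S ≤ -1 + l * (1 - β ^ l) * W := by linarith
  have h3 : (1 - β) * S ≤ (1 - β) * (-1 + l * (1 - β ^ l) * W) :=
    mul_le_mul_of_nonneg_left hS' hb.le
  have b1 := bern h0 l
  have b2 := bern h0 i
  have h4 : z i ≤ -(1 / l) + (1 - β) * l * W := by
    have q1 : (1 - β ^ l) * (1 / l) ≤ 1 - β := by
      rw [mul_one_div, div_le_iff₀ hl0]
      linarith
    have q2 : (1 - β ^ l) * z i ≤ (1 - β ^ l) * (-(1 / l) + (1 - β) * l * W) := by
      have q3 : (1 - β ^ l) * z i = (1 - β) * S := by linarith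
      rw [q3]
      have q4 : (1 - β) * (-1 + l * (1 - β ^ l) * W) = -(1 - β) + (1 - β ^ l) * ((1 - β) * l * W) := by
        ring
      rw [q4] at h3
      rw [mul_add, mul_neg]
      linarith
    exact le_of_mul_le_mul_left q2 hl1
  have h5 : (1 - β) * T ≤ (1 - β) * (i * W) := mul_le_mul_of_nonneg_left d2 hb.le
  have p1 : 0 ≤ 1 - β ^ i := by linarith [pow_le_one₀ h0.le h1.le (n := i)]
  have h6 : (1 - β ^ i) * (-W) ≤ (1 - β ^ i) * z i := mul_le_mul_of_nonneg_left hzW p1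
  have h7 : (1 - β ^ i) * W ≤ (i * (1 - β)) * W := mul_le_mul_of_nonneg_right b2 hW
  have h8 : ((l : ℝ) + 2 * i) * ((1 - β) * W) ≤ (2 * n) * ((1 - β) * W) := by
    refine mul_le_mul_of_nonneg_right ?_ (by positivity)
    exact_mod_cast (by omega : l + 2 * i ≤ 2 * n)
  have h9 : 1 / (n : ℝ) ≤ 1 / l := one_div_le_one_div_of_le hl0 (by exact_mod_cast (by omega : l ≤ n))
  linarith

end Pool.Agent.Work.MP_85af13_lc.G.E
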