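import Pool.Agent.Work.MP_85af13_lc.G.E.LasA
import Pool.Agent.Work.MP_85af13_lc.G.E.LasB

/-!
# Module Las (size M): the threshold decides the sign of the cycle

Put `β = 1 - (1/2)^(3 L + 3)`, `W = 2 ^ L`, `a t = w (f^[t] s)`, `z' t = z (f^[t] s)`; all `f^[t] s < n`
(`Function.iterate_succ_apply'`). Take `i`, `l` from `exists_loop`.
* From left to right: let `m`, `k` be given with `f^[m + k] s = f^[m] s`, `k > 0` (for `k = 0` the sum is 0), and
  suppose the sum is negative. `period_sum` (the sequence `a` is periodic from `i` on with period `l`, from `m`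
  on with period `k`: `Function.iterate_add_apply`): `k * (sum over the loop) = l * (negative)`, so the sum over
  the loop is at most `-1` and `up` gives `z s ≤ - 1 / n + 2 (1/2)^(3L+3) n 2^L`; as `n ≤ 2^L`, this is at most
  `- (1/2)^L + (1/2)^(L+2) < - (1/2)^(L+1)`, a contradiction.
* From right to left: the sum over the loop is nonnegative (`m = i`, `k = l`), `low` gives
  `z s ≥ - (1/2)^(3L+3) n 2^L ≥ - (1/2)^(L+3)`.
-/

set_option autoImplicit false

namespace Pool.Agent.Work.MP_85af13_lc.G.E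

open Pool.Agent.Work.PolyTime

private theorem per {f : ℕ → ℕ} {s m k : ℕ} (h : f^[m + k] s = f^[m] s) {t : ℕ} (ht : m ≤ t) :
    f^[t + k] s = f^[t] s := by
  obtain ⟨d, rfl⟩ := Nat.exists_eq_add_of_le ht
  rw [show m + d + k = d + (m + k) by omega, show m + d = d + m by omega,
    Function.iterate_add_apply f d (m + k), h, Function.iterate_add_apply f d m]

theorem las_iff {L n : ℕ} (hn : n ≤ 2 ^ L) {f : ℕ → ℕ} (hf : ∀ v < n, f v < n) {s : ℕ} (hs : s < n)
    {w : ℕ → ℤ} (hw : ∀ v < n, |w v| ≤ 2 ^ L) {z : ℕ → ℝ}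
    (hz : ∀ v < n, z v = (1 - (1 / 2) ^ (3 * L + 3)) * z (f v) + (1 / 2) ^ (3 * L + 3) * (w v : ℝ)) :
    -(1 / 2 : ℝ) ^ (L + 1) ≤ z s ↔ ∀ m k, f^[m + k] s = f^[m] s →
      0 ≤ ∑ i ∈ Finset.range k, w (f^[m + i] s) := by
  have hlt : ∀ t, f^[t] s < n := by
    intro t
    induction t with
    | zero => exact hs
    | succ t ih => rw [Function.iterate_succ_apply']; exact hf _ ih
  have hn0 : 0 < n := by omega
  have hnR : (0 : ℝ) < n := by exact_mod_cast hn0
  have hn2 : (n : ℝ) ≤ 2 ^ L := by exact_mod_cast hn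
  set δ : ℝ := (1 / 2) ^ (3 * L + 3) with hδ
  have hδ0 : 0 < δ := by positivity
  have hδ1 : δ < 1 := pow_lt_one₀ (by norm_num) (by norm_num) (by omega)
  have h0 : 0 < 1 - δ := by linarith
  have h1 : 1 - δ < 1 := by linarith
  have hW : (0 : ℝ) ≤ 2 ^ L := by positivity
  have ha : ∀ t, |((w (f^[t] s) : ℤ) : ℝ)| ≤ 2 ^ L := by
    intro t
    have := hw _ (hlt t)
    exact_mod_cast this
  have hZ : ∀ t, z (f^[t] s) = (1 - δ) * z (f^[t + 1] s) +
      (1 - (1 - δ)) * ((w (f^[t] s) : ℤ) : ℝ) := by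
    intro t
    rw [Function.iterate_succ_apply', show 1 - (1 - δ) = δ by ring]
    exact hz _ (hlt t)
  obtain ⟨i, l, hl, hil, hloop⟩ := exists_loop hf hs
  have hp : z (f^[i + l] s) = z (f^[i] s) := by rw [hloop]
  have hx : (1 / 2 : ℝ) ^ L * 2 ^ L = 1 := by rw [← mul_pow]; norm_num
  have hδe : δ * (2 ^ L * 2 ^ L) = (1 / 2) ^ L / 8 := by
    rw [hδ, show 3 * L + 3 = L + L + L + 3 by omega, pow_add, pow_add, pow_add]
    calc (1 / 2 : ℝ) ^ L * (1 / 2) ^ L * (1 / 2) ^ L * (1 / 2) ^ 3 * (2 ^ L * 2 ^ L)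
        = ((1 / 2 : ℝ) ^ L * 2 ^ L) * ((1 / 2 : ℝ) ^ L * 2 ^ L) * ((1 / 2) ^ L * (1 / 2) ^ 3) := by
          ring
      _ = _ := by rw [hx]; ring
  have hnn : (n : ℝ) * 2 ^ L ≤ 2 ^ L * 2 ^ L := mul_le_mul_of_nonneg_right hn2 hW
  have hnd : δ * ((n : ℝ) * 2 ^ L) ≤ (1 / 2) ^ L / 8 := by
    rw [← hδe]; exact mul_le_mul_of_nonneg_left hnn hδ0.le
  have hpos : (0 : ℝ) < (1 / 2) ^ L := by positivity
  rw [pow_succ (1 / 2 : ℝ) L]
  constructor
  · intro hzs m k hmk
    by_contra hneg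
    rw [not_le] at hneg
    have hk : 0 < k := by
      rcases Nat.eq_zero_or_pos k with rfl | hk
      · simp at hneg
      · exact hk
    have hps := period_sum (a := fun t => w (f^[t] s)) (i := i) (l := l) (m := m) (k := k)
      (fun t ht => by simp only [per hloop ht]) (fun t ht => by simp only [per hmk ht])
    have hR : (l : ℤ) * ∑ r ∈ Finset.range k, w (f^[m + r] s) < 0 :=
      mul_neg_of_pos_of_neg (by exact_mod_cast hl) hneg
    have hS : ∑ r ∈ Finset.range l, w (f^[i + r] s) < 0 := by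
      by_contra hc
      rw [not_lt] at hc
      have : 0 ≤ (k : ℤ) * ∑ r ∈ Finset.range l, w (f^[i + r] s) :=
        mul_nonneg (Int.natCast_nonneg k) hc
      omega
    have hS1 : ∑ r ∈ Finset.range l, w (f^[i + r] s) ≤ -1 := by omega
    have hS2 : ∑ r ∈ Finset.range l, ((w (f^[i + r] s) : ℤ) : ℝ) ≤ -1 := by exact_mod_cast hS1
    have hu := up (β := 1 - δ) (W := 2 ^ L) (a := fun t => ((w (f^[t] s) : ℤ) : ℝ))
      (z := fun t => z (f^[t] s)) (n := n) (i := i) (l := l) h0 h1 hW ha hZ hl hil hp hS2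
    simp only [Function.iterate_zero, id_eq] at hu
    have h1n : (1 / 2 : ℝ) ^ L ≤ 1 / n := by
      rw [le_div_iff₀ hnR]
      calc (1 / 2 : ℝ) ^ L * n ≤ (1 / 2 : ℝ) ^ L * 2 ^ L := mul_le_mul_of_nonneg_left hn2 hpos.le
        _ = 1 := hx
    have hu' : 2 * (1 - (1 - δ)) * n * 2 ^ L = 2 * (δ * ((n : ℝ) * 2 ^ L)) := by ring
    rw [hu'] at hu
    linarith
  · intro h
    have hS := h i l hloop
    have hS2 : (0 : ℝ) ≤ ∑ r ∈ Finset.range l, ((w (f^[i + r] s) : ℤ) : ℝ) := by exact_mod_cast hS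
    have hu := low (β := 1 - δ) (W := 2 ^ L) (a := fun t => ((w (f^[t] s) : ℤ) : ℝ))
      (z := fun t => z (f^[t] s)) (n := n) (i := i) (l := l) h0 h1 hW ha hZ hl hil hp hS2
    simp only [Function.iterate_zero, id_eq] at hu
    have hu' : (1 - (1 - δ)) * n * 2 ^ L = δ * ((n : ℝ) * 2 ^ L) := by ring
    rw [hu'] at hu
    linarith

end Pool.Agent.Work.MP_85af13_lc.G.E
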