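import Pool.Agent.Work.MP_85af13_lc.G.E.Eqn
import Pool.Agent.Work.MP_85af13_lc.G.E.Las

/-!
# Module Key (size M): one pair of strategies

`L = lenI I`, `n = I.1.length`, `z v = 2 ^ (L + 1) * (V (bs L v 0) - 1/2)`, `f v = (mv I σ τ v).1`,
`w v = wgt (mv I σ τ v)`. For `v < n` the edge `mv I σ τ v` is a member of `edges I.1 v` (`edgeAt_mem`, `h.2.1`), so
`f v < n` (`h.2.2`), `|w v| ≤ 2 ^ L` (`wgt_le`, `wlen_lt`), `n ≤ 2 ^ L` (`length_lt`, `Nat.lt_two_pow_self`). `eqn`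
becomes `z v = (1 - (1/2)^(3L+3)) z (f v) + (1/2)^(3L+3) w v`. `V_inl` and `start`: `1/2 ≤ winProb 0` iff
`1/2 ≤ (V (bs L s 0) + 1/2 + (1/2)^(2L+2)) / 2` iff `-(1/2)^(L+1) ≤ z s` (as `2^(L+1) (1/2)^(2L+2) = (1/2)^(L+1)`).
`las_iff`.
-/

set_option autoImplicit false

namespace Pool.Agent.Work.MP_85af13_lc.G.E

open Pool.Agent.Work.PolyTime

theorem key (I : Arena × ℕ) (h : MPWF I) (σ τ : Fin (toS I).1.length → Bool)
    (h0 : 0 < (toS I).1.length) : 1 / 2 ≤ (gameOf (toS I)).winProb σ τ ⟨0, h0⟩ ↔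
      ∀ m k, (fun v => (mv I σ τ v).1)^[m + k] I.2 = (fun v => (mv I σ τ v).1)^[m] I.2 →
        0 ≤ ∑ i ∈ Finset.range k, wgt (mv I σ τ ((fun v => (mv I σ τ v).1)^[m + i] I.2)) := by
  have hmem : ∀ v < I.1.length, mv I σ τ v ∈ edges I.1 v := fun v hv =>
    edgeAt_mem (h.2.1 v hv) _
  have hn : I.1.length ≤ 2 ^ lenI I :=
    (length_lt (I := I)).le.trans (Nat.lt_two_pow_self).le
  have hw : ∀ v < I.1.length, |wgt (mv I σ τ v)| ≤ 2 ^ lenI I := fun v hv =>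
    (wgt_le _).trans (pow_le_pow_right₀ (by norm_num) (wlen_lt hv (hmem v hv)).le)
  have hp : (2 : ℝ) ^ (lenI I + 1) * (1 / 2) ^ (lenI I + 1) = 1 := by
    rw [← mul_pow]
    norm_num
  rw [← las_iff (z := fun v => (2 : ℝ) ^ (lenI I + 1) *
      (V (toS I) σ τ (Sum.inl (bs (lenI I) v 0)) - 1 / 2)) hn
    (fun v hv => h.2.2 v hv _ (hmem v hv)) h.1 hw (fun v hv => by
      rw [eqn I h σ τ hv]
      linear_combination ((1 / 2) ^ (3 * lenI I + 3) * (wgt (mv I σ τ v) : ℝ)) * hp)]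
  rw [← V_inl (toS I) σ τ h0, start I σ τ]
  have h2 : (1 / 2 : ℝ) ^ (2 * lenI I + 2) = (1 / 2) ^ (lenI I + 1) * (1 / 2) ^ (lenI I + 1) := by
    rw [← pow_add]
    congr 1
    omega
  have hpos : (0 : ℝ) < 2 ^ (lenI I + 1) := by positivity
  have hpos' : (0 : ℝ) < (1 / 2) ^ (lenI I + 1) := by positivity
  rw [h2]
  constructor
  · intro h3
    have h4 : -((1 / 2 : ℝ) ^ (lenI I + 1) * (1 / 2) ^ (lenI I + 1)) ≤
        V (toS I) σ τ (Sum.inl (bs (lenI I) I.2 0)) - 1 / 2 := by linarith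
    have h5 := mul_le_mul_of_nonneg_left h4 hpos.le
    have h6 : (2 : ℝ) ^ (lenI I + 1) * -((1 / 2 : ℝ) ^ (lenI I + 1) * (1 / 2) ^ (lenI I + 1)) =
        -(1 / 2) ^ (lenI I + 1) := by
      linear_combination (-(1 / 2 : ℝ) ^ (lenI I + 1)) * hp
    rw [h6] at h5
    exact h5
  · intro h3
    have h5 := mul_le_mul_of_nonneg_left h3 hpos'.le
    have h6 : (1 / 2 : ℝ) ^ (lenI I + 1) * (2 ^ (lenI I + 1) *
        (V (toS I) σ τ (Sum.inl (bs (lenI I) I.2 0)) - 1 / 2)) =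
        V (toS I) σ τ (Sum.inl (bs (lenI I) I.2 0)) - 1 / 2 := by
      linear_combination (V (toS I) σ τ (Sum.inl (bs (lenI I) I.2 0)) - 1 / 2) * hp
    rw [h6] at h5
    linarith

end Pool.Agent.Work.MP_85af13_lc.G.E
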