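import Pool.Agent.Work.MP_85af13_lc.G.E.Defs

/-!
# Module LasA (size M): cycles of a map and periodic sums (elementary)

* `exists_loop`: the `n + 1` numbers `f^[t] s`, `t ≤ n`, are smaller than `n` (`hf`, induction), so two of them are
  equal (pigeonhole, e.g. `Finset.exists_ne_map_eq_of_card_lt_of_maps_to`).
* `period_sum`: (1) `∑ r < l, a (t + r)` does not depend on `t ≥ i` (`Finset.sum_range_succ`,
  `Finset.sum_range_succ'`, `a (t + l) = a t`). (2) so for `t ≥ i` the sum over `k * l` consecutive terms is `k` times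
  the sum over `l` terms (induction on `k`, `Finset.sum_range_add`-type splitting). (3) take `t = max i m` and
  exchange the roles of `(i, l)` and `(m, k)`.
-/

set_option autoImplicit false

namespace Pool.Agent.Work.MP_85af13_lc.G.E

open Pool.Agent.Work.PolyTime

theorem exists_loop {n : ℕ} {f : ℕ → ℕ} (hf : ∀ v < n, f v < n) {s : ℕ} (hs : s < n) :
    ∃ i l, 0 < l ∧ i + l ≤ n ∧ f^[i + l] s = f^[i] s := by
  have hlt : ∀ t, f^[t] s < n := by
    intro t
    induction t with
    | zero => simpa using hs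
    | succ t ih => rw [Function.iterate_succ_apply']; exact hf _ ih
  obtain ⟨x, hx, y, hy, hne, hxy⟩ := Finset.exists_ne_map_eq_of_card_lt_of_maps_to
    (s := Finset.range (n + 1)) (t := Finset.range n) (f := fun t => f^[t] s) (by simp)
    (by intro t _; simpa using hlt t)
  rw [Finset.mem_range] at hx hy
  rcases lt_or_gt_of_ne hne with h | h
  · refine ⟨x, y - x, by omega, by omega, ?_⟩
    rw [Nat.add_sub_cancel' h.le]
    exact hxy.symm
  · refine ⟨y, x - y, by omega, by omega, ?_⟩
    rw [Nat.add_sub_cancel' h.le]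
    exact hxy

private theorem sum_const {a : ℕ → ℤ} {i l : ℕ} (h1 : ∀ t, i ≤ t → a (t + l) = a t) (t : ℕ)
    (ht : i ≤ t) :
    ∑ r ∈ Finset.range l, a (t + r) = ∑ r ∈ Finset.range l, a (i + r) := by
  induction t, ht using Nat.le_induction with
  | base => rfl
  | succ t ht ih =>
    rw [← ih]
    have e1 := Finset.sum_range_succ (fun r => a (t + r)) l
    have e2 := Finset.sum_range_succ' (fun r => a (t + r)) l
    rw [e1] at e2
    have e3 : ∑ r ∈ Finset.range l, a (t + 1 + r) = ∑ r ∈ Finset.range l, a (t + (r + 1)) :=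
      Finset.sum_congr rfl fun r _ => by rw [show t + 1 + r = t + (r + 1) by omega]
    rw [e3]
    have e4 := h1 t ht
    simp only [add_zero] at e2
    linarith

private theorem sum_mul {a : ℕ → ℤ} {i l : ℕ} (h1 : ∀ t, i ≤ t → a (t + l) = a t) (k t : ℕ)
    (ht : i ≤ t) :
    ∑ r ∈ Finset.range (k * l), a (t + r) = (k : ℤ) * ∑ r ∈ Finset.range l, a (i + r) := by
  induction k with
  | zero => simp
  | succ k ih =>
    rw [Nat.succ_mul, Finset.sum_range_add, ih]
    have e : ∑ r ∈ Finset.range l, a (t + (k * l + r)) = ∑ r ∈ Finset.range l, a (i + r) := by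
      rw [← sum_const h1 (t + k * l) (by omega)]
      exact Finset.sum_congr rfl fun r _ => by rw [add_assoc]
    rw [e]
    push_cast
    ring

theorem period_sum {a : ℕ → ℤ} {i l m k : ℕ} (h1 : ∀ t, i ≤ t → a (t + l) = a t)
    (h2 : ∀ t, m ≤ t → a (t + k) = a t) :
    (k : ℤ) * ∑ r ∈ Finset.range l, a (i + r) = (l : ℤ) * ∑ r ∈ Finset.range k, a (m + r) := by
  rw [← sum_mul h1 k (max i m) (le_max_left _ _), ← sum_mul h2 l (max i m) (le_max_right _ _),
    Nat.mul_comm]

end Pool.Agent.Work.MP_85af13_lc.G.E
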