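import Pool.Agent.Work.MP_85af13_lc.G.E.Defs

/-!
# Module PtA (size M): polynomial time

Pattern: Pool/Agent/Work/MP_85af13_lc/Reduce.lean and Ops.lean; combinators `PTime.*` in Work/PolyTime (Typed, Lists,
More, Sim, EtrTime, Pairs, NPClose): `ser`, `length`, `range`, `map`, `flatMap`, `append`, `all`, `nth` (for `getD`),
`headOpt`, `cond`, `natAdd`, `natMul`, `natSub`, `natLe`, `natLt`, `eq`, `inl`, `inr`, `prodMk`, `mkSome`,
`fun_prop` for projections. `edges A v` and `owner A v` are projections of `A.getD v (true, [])`; `List.headD`: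
`l.headD d = l.getD 0 d`. `xor` of Booleans: `xor a b = bif a then !b else b`. One lemma for each definition (`lenI`, `edgeAt`, `bs`, `rbit`, `blk`,
`hd`, `toS`, `wfB`), each for functions of a parameter `x : α` as in Reduce.lean. `redE`: `PTime.getD`, `PTime.bind`,
`PTime.parseW`, `PTime.mkSome`, `PTime.cond`, `PTime.ser`.
-/

set_option autoImplicit false

namespace Pool.Agent.Work.MP_85af13_lc.G.E

open Pool.Agent.Work.PolyTime

section

variable {α : Type} [Code α]

private theorem pt_lenI {I : α → Arena × ℕ} (hI : PTime I) : PTime (fun x => lenI (I x)) :=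
  PTime.length (PTime.ser hI)

private theorem pt_owner {A : α → Arena} {v : α → ℕ} (hA : PTime A) (hv : PTime v) :
    PTime (fun x => owner (A x) (v x)) :=
  PTime.fst.comp (PTime.nth hA hv (PTime.const _))

private theorem pt_edges {A : α → Arena} {v : α → ℕ} (hA : PTime A) (hv : PTime v) :
    PTime (fun x => edges (A x) (v x)) :=
  PTime.snd.comp (PTime.nth hA hv (PTime.const _))

private theorem pt_edgeAt {A : α → Arena} {v j : α → ℕ} (hA : PTime A) (hv : PTime v)
    (hj : PTime j) : PTime (fun x => edgeAt (A x) (v x) (j x)) := by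
  have h1 := pt_edges hA hv
  refine PTime.nth h1 hj (PTime.code_congr (PTime.nth h1 (PTime.const 0)
    (PTime.const (0, false, []))) fun x => ?_)
  cases edges (A x) (v x) <;> rfl

private theorem pt_bs {L v j : α → ℕ} (hL : PTime L) (hv : PTime v) (hj : PTime j) :
    PTime (fun x => bs (L x) (v x) (j x)) := by
  unfold bs
  exact PTime.natAdd (PTime.natAdd (PTime.natMul (PTime.const _) hL) (PTime.const _))
    (PTime.natMul (PTime.natAdd (PTime.natMul hv hL) hj)
      (PTime.natAdd (PTime.natMul (PTime.const _) hL) (PTime.const _)))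

private theorem pt_rbit {L r : α → ℕ} {e : α → WEdge} (hL : PTime L) (he : PTime e)
    (hr : PTime r) : PTime (fun x => rbit (L x) (e x) (r x)) := by
  have h1 : PTime (fun x => decide (r x = 0) || (e x).2.2.getD (L x - r x) false) :=
    PTime.or (PTime.eq hr (PTime.const _))
      (PTime.nth (PTime.snd.comp (PTime.snd.comp he)) (PTime.natSub hL hr) (PTime.const _))
  have h2 : PTime (fun x => (e x).2.1) := PTime.fst.comp (PTime.snd.comp he)
  refine PTime.code_congr (PTime.cond h2 (PTime.not h1) h1) fun x => ?_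
  unfold rbit
  cases (e x).2.1 <;> simp

private theorem pt_blk {I : α → Arena × ℕ} {v j i : α → ℕ} (hI : PTime I) (hv : PTime v)
    (hj : PTime j) (hi : PTime i) : PTime (fun x => blk (I x) (v x) (j x) (i x)) := by
  have hL := pt_lenI hI
  have hb := pt_bs hL hv hj
  have he := pt_edgeAt (PTime.fst.comp hI) hv hj
  have h3L : PTime (fun x => 3 * lenI (I x) + 4) :=
    PTime.natAdd (PTime.natMul (PTime.const _) hL) (PTime.const _)
  have h4L : PTime (fun x => 4 * lenI (I x) + 5) :=
    PTime.natAdd (PTime.natMul (PTime.const _) hL) (PTime.const _)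
  unfold blk
  refine PTime.cond (PTime.eq hi (PTime.const _)) ?_ (PTime.cond (PTime.natLt hi h3L) ?_ ?_)
  · refine PTime.prodMk (PTime.mkSome (pt_owner (PTime.fst.comp hI) hv))
      (PTime.prodMk (PTime.inl (PTime.succ hb)) ?_)
    exact PTime.cond (PTime.natLt (PTime.succ hj) hL)
      (PTime.inl (pt_bs hL hv (PTime.succ hj))) (PTime.inl (PTime.succ hb))
  · exact PTime.prodMk (PTime.const _) (PTime.prodMk
      (PTime.inl (pt_bs hL (PTime.fst.comp he) (PTime.const _)))
      (PTime.inl (PTime.succ (PTime.natAdd hb hi))))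
  · refine PTime.prodMk (PTime.const _) (PTime.prodMk
      (PTime.inr (pt_rbit hL he (PTime.natSub hi h3L))) ?_)
    exact PTime.cond (PTime.natLt (PTime.succ hi) h4L)
      (PTime.inl (PTime.succ (PTime.natAdd hb hi))) (PTime.inr (PTime.fst.comp (PTime.snd.comp he)))

private theorem pt_hd {I : α → Arena × ℕ} {i : α → ℕ} (hI : PTime I) (hi : PTime i) :
    PTime (fun x => hd (I x) (i x)) := by
  have hL := pt_lenI hI
  have h2L : PTime (fun x => 2 * lenI (I x) + 2) :=
    PTime.natAdd (PTime.natMul (PTime.const _) hL) (PTime.const _)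
  unfold hd
  refine PTime.cond (PTime.eq hi (PTime.const _)) ?_ ?_
  · exact PTime.prodMk (PTime.const _) (PTime.prodMk
      (PTime.inl (pt_bs hL (PTime.snd.comp hI) (PTime.const _))) (PTime.const _))
  · exact PTime.prodMk (PTime.const _) (PTime.prodMk
      (PTime.inr (PTime.or (PTime.eq hi (PTime.const _)) (PTime.eq hi h2L)))
      (PTime.cond (PTime.natLt hi h2L) (PTime.inl (PTime.succ hi)) (PTime.const _)))

private theorem pt_toS {I : α → Arena × ℕ} (hI : PTime I) : PTime (fun x => toS (I x)) := by
  have hL := pt_lenI hI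
  unfold toS
  refine PTime.prodMk (PTime.append ?_ ?_) (PTime.const _)
  · refine PTime.map (f := fun x i => hd (I x) i) (PTime.range
      (PTime.natAdd (PTime.natMul (PTime.const _) hL) (PTime.const _))) ?_
    exact pt_hd (hI.comp PTime.fst) PTime.snd
  · refine PTime.flatMap (f := fun x v => (List.range (lenI (I x))).flatMap fun j =>
      (List.range (4 * lenI (I x) + 5)).map fun i => blk (I x) v j i)
      (PTime.range (PTime.length (PTime.fst.comp hI))) ?_
    refine PTime.flatMap (f := fun (y : α × ℕ) j =>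
      (List.range (4 * lenI (I y.1) + 5)).map fun i => blk (I y.1) y.2 j i)
      (PTime.range (hL.comp PTime.fst)) ?_
    refine PTime.map (f := fun (z : (α × ℕ) × ℕ) i => blk (I z.1.1) z.1.2 z.2 i)
      (PTime.range (PTime.natAdd (PTime.natMul (PTime.const _)
        (hL.comp (PTime.fst.comp PTime.fst))) (PTime.const _))) ?_
    exact pt_blk (hI.comp (f := fun z : ((α × ℕ) × ℕ) × ℕ => z.1.1.1) (by fun_prop))
      (by fun_prop) (by fun_prop) (by fun_prop)

private theorem pt_wfB {I : α → Arena × ℕ} (hI : PTime I) : PTime (fun x => wfB (I x)) := by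
  have h1 : PTime (fun x => (I x).1) := PTime.fst.comp hI
  have hn : PTime (fun x => (I x).1.length) := PTime.length h1
  unfold wfB
  refine PTime.and (PTime.natLt (PTime.snd.comp hI) hn) (PTime.and ?_ ?_)
  · refine PTime.all (p := fun _ p => !(p.2.isEmpty)) h1 ?_
    exact PTime.not (PTime.isEmpty (PTime.snd.comp PTime.snd))
  · refine PTime.all (p := fun x p => p.2.all fun e => decide (e.1 < (I x).1.length)) h1 ?_
    refine PTime.all (p := fun (y : α × (Bool × List WEdge)) (e : WEdge) =>
      decide (e.1 < (I y.1).1.length)) (PTime.snd.comp PTime.snd) ?_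
    exact PTime.natLt (PTime.fst.comp PTime.snd) (hn.comp (PTime.fst.comp PTime.fst))

end

theorem ptime_redE : PTime redE := by
  unfold redE
  refine PTime.getD (PTime.bind (PTime.parseW PTime.id) (PTime.mkSome ?_)) (PTime.const _)
  exact PTime.cond (pt_wfB PTime.snd) (PTime.ser (pt_toS PTime.snd)) (PTime.const _)

end Pool.Agent.Work.MP_85af13_lc.G.E
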