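import Pool.Agent.Work.MP_85af13_lc.G.E.Corr
import Pool.Agent.Work.MP_85af13_lc.G.E.PtA

/-!
# Module Main (size S-M): the reduction

Pattern: `reducible_bipartite` at the end of Pool/Agent/Work/MP_85af13_lc/Reduce.lean.
`polyTimeComputable_of_PTime_word ptime_redE`. `[]` is not in `stochastic` (codes are not empty). If `parseW` fails,
`w` is not in `meanPayoff` (`parseW_ser`) and the image is `[]`. If `w = (code I).ser` and `wfB I = false`, then
`¬ MPWF I` (`wfB_iff`) and (codes are injective, `Decode.injective (T.ser_inj _)`) `w` is not in `meanPayoff`. If
`wfB I = true`, use `corr`; the start node `0` is smaller than the length (`toS_length`).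
-/

set_option autoImplicit false

namespace Pool.Agent.Work.MP_85af13_lc.G.E

open Pool.Agent.Work.PolyTime

private theorem ser_ne_nil {α : Type} [Code α] (a : α) : (code a).ser ≠ [] := by
  intro h
  have := sz_pos a
  rw [sz, h] at this
  simp at this

theorem reducible_stochastic : PolyReducible meanPayoff stochastic := by
  refine ⟨redE, polyTimeComputable_of_PTime_word ptime_redE, fun w => ?_⟩
  have hnil : ([] : List Bool) ∉ stochastic := by
    rintro ⟨S, hS, -⟩
    exact ser_ne_nil S hS.symm
  cases hp : parseW (Arena × ℕ) w with
  | none =>
    have h1 : redE w = [] := by simp [redE, hp]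
    rw [h1]
    constructor
    · rintro ⟨I, rfl, -⟩
      rw [parseW_ser] at hp
      cases hp
    · intro h; exact absurd h hnil
  | some I =>
    have hw := parseW_eq_some.1 hp
    subst hw
    by_cases hE : MPWF I
    · have h1 : redE (code I).ser = (code (toS I)).ser := by
        simp [redE, parseW_ser, wfB_iff.2 hE]
      have h0 : 0 < (toS I).1.length := by
        rw [toS_length]
        omega
      rw [h1]
      constructor
      · rintro ⟨J, hJ, -, hV⟩
        have : I = J := Decode.injective (T.ser_inj hJ)
        subst this
        exact ⟨toS I, rfl, h0, (corr I hE h0).2 hV⟩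
      · rintro ⟨J, hJ, hlt, hV⟩
        have : toS I = J := LawfulCode.inj (T.ser_inj hJ)
        subst this
        exact ⟨I, rfl, hE, (corr I hE h0).1 hV⟩
    · have h1 : redE (code I).ser = [] := by
        have : wfB I = false := by
          rw [← Bool.not_eq_true]; exact fun h => hE (wfB_iff.1 h)
        simp [redE, parseW_ser, this]
      rw [h1]
      constructor
      · rintro ⟨J, hJ, hF, -⟩
        have : I = J := Decode.injective (T.ser_inj hJ)
        subst this
        exact absurd hF hE
      · intro h; exact absurd h hnil

end Pool.Agent.Work.MP_85af13_lc.G.E
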