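import Pool.Agent.Work.MP_85af13_lc.G.E.Defs

/-!
# Module Val (size S-M): the equations of the values

`V S σ τ p = ext ((gameOf S).winProb σ τ) sinkVal (toPos S.1.length p)`.
* `V_inr`: unfold (`toPos (Sum.inr b) = Sum.inr b`, `ext`, `sinkVal`).
* `V_inl`: `toPos n (Sum.inl q) = Sum.inl ⟨q, hq⟩` for `q < n` (`dif_pos`).
* `V_avg`, `V_pl`: `SSG.winProb_eq` (file SSG.lean) for the vertex `⟨q, hq⟩` and `SSG.next` (Defs.lean): by
  the definition of `gameOf`, `kind` and `succ` at `⟨q, hq⟩` are read off `S.1.getD q dNd` (`dNd` is the default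
  entry in the definition of `gameOf`, definitionally); rewrite with `h`. For a player both successors of
  `next` are the chosen one, so the value is `(x + x) / 2 = x`; `rd σ q = σ ⟨q, hq⟩`.
-/

set_option autoImplicit false

namespace Pool.Agent.Work.MP_85af13_lc.G.E

open Pool.Agent.Work.PolyTime

variable (S : SInst) (σ τ : Fin S.1.length → Bool)

theorem V_inr (b : Bool) : V S σ τ (Sum.inr b) = if b then 1 else 0 := rfl

theorem V_inl {q : ℕ} (hq : q < S.1.length) :
    V S σ τ (Sum.inl q) = (gameOf S).winProb σ τ ⟨q, hq⟩ := by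
  unfold V
  have h : toPos S.1.length (Sum.inl q) = Sum.inl ⟨q, hq⟩ := dif_pos hq
  rw [h]
  rfl

theorem V_avg {q : ℕ} (hq : q < S.1.length) {a b : ℕ ⊕ Bool} (h : S.1.getD q dNd = (none, a, b)) :
    V S σ τ (Sum.inl q) = (V S σ τ a + V S σ τ b) / 2 := by
  rw [V_inl S σ τ hq, SSG.winProb_eq]
  have h' : S.1.getD q (none, Sum.inr false, Sum.inr false) = (none, a, b) := h
  have hn : ∀ i, (gameOf S).next σ τ ⟨q, hq⟩ i = toPos S.1.length (bif i then b else a) := by
    intro i
    simp only [SSG.next, gameOf, h', kindOf]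
  rw [hn, hn]
  rfl

theorem V_pl {q : ℕ} (hq : q < S.1.length) {o : Bool} {a b : ℕ ⊕ Bool}
    (h : S.1.getD q dNd = (some o, a, b)) :
    V S σ τ (Sum.inl q) = if (bif o then rd σ q else rd τ q) = true then V S σ τ b
      else V S σ τ a := by
  rw [V_inl S σ τ hq, SSG.winProb_eq]
  have h' : S.1.getD q (none, Sum.inr false, Sum.inr false) = (some o, a, b) := h
  have hn : ∀ i, (gameOf S).next σ τ ⟨q, hq⟩ i = toPos S.1.length
      (bif (bif o then rd σ q else rd τ q) then b else a) := by
    intro i
    cases o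
    · simp only [SSG.next, gameOf, h', kindOf, rd, dif_pos hq, cond_false]
    · simp only [SSG.next, gameOf, h', kindOf, rd, dif_pos hq, cond_true]
  rw [hn, hn]
  cases (bif o then rd σ q else rd τ q)
  · simp only [cond_false, Bool.false_eq_true, if_false, V]
    ring
  · simp only [cond_true, if_true, V]
    ring

end Pool.Agent.Work.MP_85af13_lc.G.E
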